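import Pool.Agent.R805.Bip.Chain

/-!
# MP_c6d8e2: the knot `8_18` is bipartite

Knot diagrams (planar diagram codes), Reidemeister moves, closed braids and matched diagrams are
defined in `Pool/Agent/R805/Bip/Defs.lean`.
-/

namespace Pool.Agent.Results.MP_c6d8e2_gt.Bipartite818

open Pool.Agent.R805.Bip

/-- **The knot `8_18` has a matched diagram.**  The closure of the 3-braid `(σ₁ σ₂⁻¹)⁴` is
transformed by Reidemeister moves into a diagram with 12 crossings which are partitioned into six
matched pairs (antiparallel clasps). -/
theorem result :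
    IsDiagram knot818 = true ∧
    ∃ D : PD, IsDiagram D = true ∧ D.length = 12 ∧ Equivalent knot818 D ∧ Matched D :=
  ⟨h818, d0, h0, rfl, d0_equiv, d0_matched⟩

end Pool.Agent.Results.MP_c6d8e2_gt.Bipartite818
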